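import Pool.Agent.MP_86c931_ag.H30.Star
import Pool.Agent.MP_86c931_ag.H56.RowsA

/-! The Moyal product attached to a family of commuting derivations. -/

namespace Pool.Agent.MP_86c931_ag.H31

open Finset PowerSeries
open H30 (liftD coeff_liftD liftD_comm liftD_scalar liftD_X_pow eq_of_dvd square_triangle
  weight_split)
open H56 (brk Moyal RowSTAR)

section abstract

variable {T : Type} [CommRing T] [Algebra ℂ T] {σ : Type} [Fintype σ]
  (D : σ → Derivation ℂ T T) (dual : σ → σ) (ε : σ → ℂ)

/-- the bidifferential operators -/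
noncomputable def Cop : ℕ → T → T → T
  | 0, F, G => F * G
  | k + 1, F, G => ((k : ℂ) + 1)⁻¹ • ∑ s, (ε s / 2) • Cop k (D s F) (D (dual s) G)

lemma Cop_zero (F G : T) : Cop D dual ε 0 F G = F * G := rfl

lemma Cop_succ' (k : ℕ) (F G : T) : Cop D dual ε (k + 1) F G =
    ((k : ℂ) + 1)⁻¹ • ∑ s, (ε s / 2) • Cop D dual ε k (D s F) (D (dual s) G) := rfl

lemma Cop_succ (k : ℕ) (F G : T) : ((k : ℂ) + 1) • Cop D dual ε (k + 1) F G =
    ∑ s, (ε s / 2) • Cop D dual ε k (D s F) (D (dual s) G) := by
  have h1 : ((k : ℂ) + 1) ≠ 0 := by exact_mod_cast Nat.succ_ne_zero k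
  rw [Cop_succ', smul_smul, mul_inv_cancel₀ h1, one_smul]

lemma Cop_add_left (k : ℕ) (F F' G : T) :
    Cop D dual ε k (F + F') G = Cop D dual ε k F G + Cop D dual ε k F' G := by
  induction k generalizing F F' G with
  | zero => exact add_mul _ _ _
  | succ k ih => simp only [Cop_succ', map_add, ih, smul_add, sum_add_distrib]

lemma Cop_add_right (k : ℕ) (F G G' : T) :
    Cop D dual ε k F (G + G') = Cop D dual ε k F G + Cop D dual ε k F G' := by
  induction k generalizing F G G' with
  | zero => exact mul_add _ _ _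
  | succ k ih => simp only [Cop_succ', map_add, ih, smul_add, sum_add_distrib]

lemma Cop_mul_left (k : ℕ) (c F G : T) (hc : ∀ s, D s c = 0) :
    Cop D dual ε k (c * F) G = c * Cop D dual ε k F G := by
  induction k generalizing F G with
  | zero => exact mul_assoc _ _ _
  | succ k ih =>
    simp only [Cop_succ', Derivation.leibniz, hc, mul_zero, add_zero, smul_eq_mul, ih,
      mul_smul_comm, mul_sum]

lemma Cop_mul_right (k : ℕ) (c F G : T) (hc : ∀ s, D s c = 0) :
    Cop D dual ε k F (c * G) = c * Cop D dual ε k F G := by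
  induction k generalizing F G with
  | zero => exact mul_left_comm _ _ _
  | succ k ih =>
    simp only [Cop_succ', Derivation.leibniz, hc, mul_zero, add_zero, smul_eq_mul, ih,
      mul_smul_comm, mul_sum]

lemma Cop_zero_left (k : ℕ) (G : T) : Cop D dual ε k 0 G = 0 := by
  simpa using Cop_mul_left D dual ε k 0 0 G fun s => map_zero _

lemma Cop_zero_right (k : ℕ) (F : T) : Cop D dual ε k F 0 = 0 := by
  simpa using Cop_mul_right D dual ε k 0 F 0 fun s => map_zero _

lemma Cop_sum_left {ι : Type*} (s : Finset ι) (k : ℕ) (F : ι → T) (G : T) :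
    Cop D dual ε k (∑ i ∈ s, F i) G = ∑ i ∈ s, Cop D dual ε k (F i) G := by
  classical
  induction s using Finset.induction_on with
  | empty => simp [Cop_zero_left]
  | insert a s ha ih => rw [sum_insert ha, sum_insert ha, Cop_add_left, ih]

lemma Cop_sum_right {ι : Type*} (s : Finset ι) (k : ℕ) (F : T) (G : ι → T) :
    Cop D dual ε k F (∑ i ∈ s, G i) = ∑ i ∈ s, Cop D dual ε k F (G i) := by
  classical
  induction s using Finset.induction_on with
  | empty => simp [Cop_zero_right]
  | insert a s ha ih => rw [sum_insert ha, sum_insert ha, Cop_add_right, ih]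

lemma Cop_smul_left (k : ℕ) (a : ℂ) (F G : T) :
    Cop D dual ε k (a • F) G = a • Cop D dual ε k F G := by
  rw [Algebra.smul_def, Algebra.smul_def,
    Cop_mul_left _ _ _ _ _ _ _ fun s => Derivation.map_algebraMap (D s) a]

lemma Cop_smul_right (k : ℕ) (a : ℂ) (F G : T) :
    Cop D dual ε k F (a • G) = a • Cop D dual ε k F G := by
  rw [Algebra.smul_def, Algebra.smul_def,
    Cop_mul_right _ _ _ _ _ _ _ fun s => Derivation.map_algebraMap (D s) a]

lemma Cop_nil1 (k : ℕ) (F : T) {H : T} (h : ∀ s, D s H = 0) : Cop D dual ε (k + 1) F H = 0 := by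
  simp only [Cop_succ', h, Cop_zero_right, smul_zero, sum_const_zero]

lemma Cop_nil1' (k : ℕ) (G : T) {H : T} (h : ∀ s, D s H = 0) : Cop D dual ε (k + 1) H G = 0 := by
  simp only [Cop_succ', h, Cop_zero_left, smul_zero, sum_const_zero]

lemma Cop_nil2 (k : ℕ) (F : T) {H : T} (h : ∀ s t, D s (D t H) = 0) :
    Cop D dual ε (k + 2) F H = 0 := by
  rw [Cop_succ']
  simp only [Cop_nil1 D dual ε k _ fun s => h s _, smul_zero, sum_const_zero]

lemma Cop_nil3 (k : ℕ) (F : T) {H : T} (h : ∀ s t u, D s (D t (D u H)) = 0) :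
    Cop D dual ε (k + 3) F H = 0 := by
  rw [Cop_succ']
  simp only [Cop_nil2 D dual ε k _ fun s t => h s t _, smul_zero, sum_const_zero]

variable {D dual ε}

lemma D_Cop (h : ∀ s t f, D s (D t f) = D t (D s f)) (t : σ) (k : ℕ) (F G : T) :
    D t (Cop D dual ε k F G) = Cop D dual ε k (D t F) G + Cop D dual ε k F (D t G) := by
  induction k generalizing F G with
  | zero =>
    simp only [Cop_zero, Derivation.leibniz, smul_eq_mul]
    ring
  | succ k ih =>
    simp only [Cop_succ', Derivation.map_smul, map_sum, ih, h t, smul_add, sum_add_distrib]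

lemma Cop_assoc (h : ∀ s t f, D s (D t f) = D t (D s f)) (n : ℕ) (F G H : T) :
    ∑ p ∈ antidiagonal n, Cop D dual ε p.2 (Cop D dual ε p.1 F G) H =
      ∑ p ∈ antidiagonal n, Cop D dual ε p.2 F (Cop D dual ε p.1 G H) := by
  induction n generalizing F G H with
  | zero => simp [Cop_zero, mul_assoc]
  | succ n ih =>
    have h1 : ((n : ℂ) + 1) ≠ 0 := by exact_mod_cast Nat.succ_ne_zero n
    have key :
        ((n : ℂ) + 1) • ∑ p ∈ antidiagonal (n + 1), Cop D dual ε p.2 (Cop D dual ε p.1 F G) H =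
        ((n : ℂ) + 1) • ∑ p ∈ antidiagonal (n + 1), Cop D dual ε p.2 F (Cop D dual ε p.1 G H) := by
      rw [weight_split, weight_split]
      have a1 : ∀ p : ℕ × ℕ, ((p.1 : ℂ) + 1) • Cop D dual ε p.2 (Cop D dual ε (p.1 + 1) F G) H =
          ∑ s, (ε s / 2) • Cop D dual ε p.2 (Cop D dual ε p.1 (D s F) (D (dual s) G)) H :=
        fun p => by
          rw [← Cop_smul_left, Cop_succ, Cop_sum_left]
          simp only [Cop_smul_left]
      have a2 : ∀ p : ℕ × ℕ, ((p.1 : ℂ) + 1) • Cop D dual ε p.2 F (Cop D dual ε (p.1 + 1) G H) =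
          ∑ s, (ε s / 2) • Cop D dual ε p.2 F (Cop D dual ε p.1 (D s G) (D (dual s) H)) :=
        fun p => by
          rw [← Cop_smul_right, Cop_succ, Cop_sum_right]
          simp only [Cop_smul_right]
      have a3 : ∀ u : ℕ × ℕ → σ → T, ∑ p ∈ antidiagonal n, ∑ s, (ε s / 2) • u p s =
          ∑ s, (ε s / 2) • ∑ p ∈ antidiagonal n, u p s := fun u => by
        rw [sum_comm]
        simp only [smul_sum]
      simp only [a1, a2, Cop_succ, D_Cop h, Cop_add_left, Cop_add_right]
      rw [a3, a3, a3, a3]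
      simp only [sum_add_distrib, ih, smul_add]
      abel
    have := congrArg (fun z => ((n : ℂ) + 1)⁻¹ • z) key
    simpa only [smul_smul, inv_mul_cancel₀ h1, one_smul] using this

lemma Cop_symm (hd : ∀ s, dual (dual s) = s) (hε : ∀ s, ε (dual s) = -ε s) (k : ℕ) (F G : T) :
    Cop D dual ε k G F = (-1 : ℂ) ^ k • Cop D dual ε k F G := by
  induction k generalizing F G with
  | zero => rw [pow_zero, one_smul, Cop_zero, Cop_zero, mul_comm]
  | succ k ih =>
    rw [Cop_succ', Cop_succ', smul_comm ((-1 : ℂ) ^ (k + 1)), smul_sum (r := (-1 : ℂ) ^ (k + 1)),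
      ← Equiv.sum_comp (Function.Involutive.toPerm dual hd)]
    refine congrArg _ (sum_congr rfl fun s _ => ?_)
    rw [Function.Involutive.coe_toPerm, hd, hε, ih, smul_smul, smul_smul]
    refine congrArg (· • _) ?_
    ring

lemma Cop_one_sub (hd : ∀ s, dual (dual s) = s) (hε : ∀ s, ε (dual s) = -ε s) (F G : T) :
    Cop D dual ε 1 F G - Cop D dual ε 1 G F = brk D dual ε F G := by
  rw [Cop_symm hd hε 1 F G, pow_one, neg_one_smul, sub_neg_eq_add, ← two_smul ℂ, Cop_succ',
    smul_smul, smul_sum, brk]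
  refine sum_congr rfl fun s _ => ?_
  rw [smul_smul, Cop_zero]
  refine congrArg (· • _) ?_
  push_cast
  ring

lemma Cop_quad (hd : ∀ s, dual (dual s) = s) (hε : ∀ s, ε (dual s) = -ε s) (F : T) {H : T}
    (h : ∀ s t u, D s (D t (D u H)) = 0) {k : ℕ} (hk : k ≠ 1) :
    Cop D dual ε k F H - Cop D dual ε k H F = 0 := by
  rw [Cop_symm hd hε k F H]
  match k, hk with
  | 0, _ => simp
  | 2, _ => simp
  | k + 3, _ => rw [Cop_nil3 D dual ε k F h, smul_zero, sub_zero]

end abstract

section series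

variable {R : Type} [CommRing R] [Algebra ℂ R] {σ : Type} [Fintype σ]
  (d : σ → Derivation ℂ R R) (dual : σ → σ) (ε : σ → ℂ)

/-- the operators on power series -/
noncomputable abbrev CopS (k : ℕ) (F G : R⟦X⟧) : R⟦X⟧ := Cop (fun s => liftD (d s)) dual ε k F G

/-- the star product -/
noncomputable def star (F G : R⟦X⟧) : R⟦X⟧ :=
  PowerSeries.mk fun n => ∑ k ∈ range (n + 1), coeff n (X ^ k * CopS d dual ε k F G)

lemma star_trunc (N : ℕ) (F G : R⟦X⟧) :
    (X : R⟦X⟧) ^ N ∣ star d dual ε F G - ∑ k ∈ range N, X ^ k * CopS d dual ε k F G := by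
  rw [X_pow_dvd_iff]
  intro m hm
  rw [map_sub, star, coeff_mk, map_sum, sub_eq_zero]
  apply sum_subset
  · intro k hk
    simp only [mem_range] at hk ⊢
    omega
  · intro k _ hk
    simp only [mem_range] at hk
    rw [coeff_X_pow_mul', if_neg (by omega)]

lemma CopS_X_left (N k : ℕ) (F G : R⟦X⟧) :
    CopS d dual ε k (X ^ N * F) G = X ^ N * CopS d dual ε k F G :=
  Cop_mul_left _ _ _ _ _ _ _ fun s => liftD_X_pow (d s) N

lemma CopS_X_right (N k : ℕ) (F G : R⟦X⟧) :
    CopS d dual ε k F (X ^ N * G) = X ^ N * CopS d dual ε k F G :=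
  Cop_mul_right _ _ _ _ _ _ _ fun s => liftD_X_pow (d s) N

lemma Cop_dvd_left (N k : ℕ) {F F' : R⟦X⟧} (G : R⟦X⟧) (h : (X : R⟦X⟧) ^ N ∣ F - F') :
    (X : R⟦X⟧) ^ N ∣ CopS d dual ε k F G - CopS d dual ε k F' G := by
  obtain ⟨U, hU⟩ := h
  rw [sub_eq_iff_eq_add.1 hU, CopS, Cop_add_left, ← CopS, CopS_X_left, add_sub_cancel_right]
  exact Dvd.intro _ rfl

lemma Cop_dvd_right (N k : ℕ) (F : R⟦X⟧) {G G' : R⟦X⟧} (h : (X : R⟦X⟧) ^ N ∣ G - G') :
    (X : R⟦X⟧) ^ N ∣ CopS d dual ε k F G - CopS d dual ε k F G' := by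
  obtain ⟨U, hU⟩ := h
  rw [sub_eq_iff_eq_add.1 hU, CopS, Cop_add_right, ← CopS, CopS_X_right, add_sub_cancel_right]
  exact Dvd.intro _ rfl

variable {d}

lemma star_assoc (h : ∀ s t f, d s (d t f) = d t (d s f)) (F G H : R⟦X⟧) :
    star d dual ε (star d dual ε F G) H = star d dual ε F (star d dual ε G H) := by
  refine eq_of_dvd fun N => ?_
  have l1 := star_trunc d dual ε N (star d dual ε F G) H
  have l2 : (X : R⟦X⟧) ^ N ∣
      ∑ l ∈ range N, X ^ l * CopS d dual ε l (star d dual ε F G) H -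
      ∑ l ∈ range N, ∑ k ∈ range N, X ^ l * (X ^ k *
        CopS d dual ε l (CopS d dual ε k F G) H) := by
    rw [← sum_sub_distrib]
    refine dvd_sum fun l _ => ?_
    rw [← mul_sum, ← mul_sub]
    refine Dvd.dvd.mul_left ?_ _
    have := Cop_dvd_left d dual ε N l H (star_trunc d dual ε N F G)
    have e : CopS d dual ε l (∑ k ∈ range N, X ^ k * CopS d dual ε k F G) H =
        ∑ k ∈ range N, X ^ k * CopS d dual ε l (CopS d dual ε k F G) H := by
      rw [CopS, Cop_sum_left]
      exact sum_congr rfl fun k _ => CopS_X_left d dual ε _ _ _ _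
    rwa [e] at this
  have l3 := square_triangle N (fun p => CopS d dual ε p.2 (CopS d dual ε p.1 F G) H)
  have r1 := star_trunc d dual ε N F (star d dual ε G H)
  have r2 : (X : R⟦X⟧) ^ N ∣
      ∑ l ∈ range N, X ^ l * CopS d dual ε l F (star d dual ε G H) -
      ∑ l ∈ range N, ∑ k ∈ range N, X ^ l * (X ^ k *
        CopS d dual ε l F (CopS d dual ε k G H)) := by
    rw [← sum_sub_distrib]
    refine dvd_sum fun l _ => ?_
    rw [← mul_sum, ← mul_sub]
    refine Dvd.dvd.mul_left ?_ _
    have := Cop_dvd_right d dual ε N l F (star_trunc d dual ε N G H)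
    have e : CopS d dual ε l F (∑ k ∈ range N, X ^ k * CopS d dual ε k G H) =
        ∑ k ∈ range N, X ^ k * CopS d dual ε l F (CopS d dual ε k G H) := by
      rw [CopS, Cop_sum_right]
      exact sum_congr rfl fun k _ => CopS_X_right d dual ε _ _ _ _
    rwa [e] at this
  have r3 := square_triangle N (fun p => CopS d dual ε p.2 F (CopS d dual ε p.1 G H))
  have ha : ∀ n, ∑ p ∈ antidiagonal n, CopS d dual ε p.2 (CopS d dual ε p.1 F G) H =
      ∑ p ∈ antidiagonal n, CopS d dual ε p.2 F (CopS d dual ε p.1 G H) := fun n =>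
    Cop_assoc (fun s t => liftD_comm (h s t)) n F G H
  simp only [ha] at l3
  have := ((l1.add l2).add l3).sub ((r1.add r2).add r3)
  have e1 : ∀ a b c s a' b' c' : R⟦X⟧,
      (a - b + (b - c) + (c - s)) - (a' - b' + (b' - c') + (c' - s)) = a - a' := by
    intros; ring
  rwa [e1] at this

variable (d)

lemma star_add_left (F F' G : R⟦X⟧) :
    star d dual ε (F + F') G = star d dual ε F G + star d dual ε F' G := by
  ext n; simp only [star, coeff_mk, CopS, Cop_add_left, mul_add, map_add, sum_add_distrib]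

lemma star_add_right (F G G' : R⟦X⟧) :
    star d dual ε F (G + G') = star d dual ε F G + star d dual ε F G' := by
  ext n; simp only [star, coeff_mk, CopS, Cop_add_right, mul_add, map_add, sum_add_distrib]

lemma star_const_left (c F G : R⟦X⟧) (hc : ∀ s, liftD (d s) c = 0) :
    star d dual ε (c * F) G = c * star d dual ε F G := by
  refine eq_of_dvd fun N => ?_
  have l1 := star_trunc d dual ε N (c * F) G
  have l2 := (star_trunc d dual ε N F G).mul_left c
  have e : ∀ k, CopS d dual ε k (c * F) G = c * CopS d dual ε k F G := fun k =>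
    Cop_mul_left _ _ _ _ _ _ _ hc
  simp only [e] at l1
  have := l1.sub l2
  rw [mul_sub, mul_sum] at this
  simp only [mul_left_comm c] at this
  simpa using this

lemma star_const_right (c F G : R⟦X⟧) (hc : ∀ s, liftD (d s) c = 0) :
    star d dual ε F (c * G) = c * star d dual ε F G := by
  refine eq_of_dvd fun N => ?_
  have l1 := star_trunc d dual ε N F (c * G)
  have l2 := (star_trunc d dual ε N F G).mul_left c
  have e : ∀ k, CopS d dual ε k F (c * G) = c * CopS d dual ε k F G := fun k =>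
    Cop_mul_right _ _ _ _ _ _ _ hc
  simp only [e] at l1
  have := l1.sub l2
  rw [mul_sub, mul_sum] at this
  simp only [mul_left_comm c] at this
  simpa using this

lemma star_one_left (G : R⟦X⟧) : star d dual ε 1 G = G := by
  ext n
  rw [star, coeff_mk, sum_range_succ']
  have : ∀ k, CopS d dual ε (k + 1) 1 G = 0 := fun k =>
    Cop_nil1' _ _ _ k G fun s => Derivation.map_one_eq_zero _
  simp [this, Cop_zero]

lemma star_one_right (F : R⟦X⟧) : star d dual ε F 1 = F := by
  ext n
  rw [star, coeff_mk, sum_range_succ']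
  have : ∀ k, CopS d dual ε (k + 1) F 1 = 0 := fun k =>
    Cop_nil1 _ _ _ k F fun s => Derivation.map_one_eq_zero _
  simp [this, Cop_zero]

lemma star_zero_left (G : R⟦X⟧) : star d dual ε 0 G = 0 := by
  ext n; simp [star, Cop_zero_left]

lemma star_zero_right (F : R⟦X⟧) : star d dual ε F 0 = 0 := by
  ext n; simp [star, Cop_zero_right]

lemma coeff_zero_star (F G : R⟦X⟧) : coeff 0 (star d dual ε F G) = coeff 0 F * coeff 0 G := by
  simp [star, Cop_zero]

lemma coeff_star_sub (F G : R⟦X⟧) (n : ℕ) : coeff n (star d dual ε F G - star d dual ε G F) =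
    ∑ k ∈ range (n + 1), coeff n (X ^ k * (CopS d dual ε k F G - CopS d dual ε k G F)) := by
  simp only [star, map_sub, coeff_mk, mul_sub, sum_sub_distrib]

variable {dual ε}

lemma coeff_one_star_sub (hd : ∀ s, dual (dual s) = s) (hε : ∀ s, ε (dual s) = -ε s)
    (F G : R⟦X⟧) : coeff 1 (star d dual ε F G - star d dual ε G F) =
      brk d dual ε (coeff 0 F) (coeff 0 G) := by
  rw [coeff_star_sub, sum_range_succ, sum_range_one, CopS, CopS, Cop_zero, Cop_zero, mul_comm G F,
    sub_self, mul_zero, map_zero, zero_add, CopS, CopS, Cop_one_sub hd hε]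
  have := coeff_X_pow_mul (brk (fun s => liftD (d s)) dual ε F G) 1 0
  rw [zero_add] at this
  rw [this, brk, brk, map_sum]
  refine sum_congr rfl fun s _ => ?_
  rw [coeff_smul, coeff_zero_eq_constantCoeff_apply, map_mul, ← coeff_zero_eq_constantCoeff_apply,
    ← coeff_zero_eq_constantCoeff_apply, coeff_liftD, coeff_liftD]

lemma liftD_C (e : Derivation ℂ R R) (H : R) : liftD e (C H) = C (e H) := by
  ext n
  rw [coeff_liftD, coeff_C, coeff_C]
  split_ifs <;> simp

lemma coeff_star_quad (hd : ∀ s, dual (dual s) = s) (hε : ∀ s, ε (dual s) = -ε s) (H : R)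
    (h : ∀ s t u, d s (d t (d u H)) = 0) (F : R⟦X⟧) (n : ℕ) :
    coeff (n + 1) (star d dual ε F (C H) - star d dual ε (C H) F) =
      brk d dual ε (coeff n F) H := by
  rw [coeff_star_sub, sum_eq_single 1]
  · rw [CopS, CopS, Cop_one_sub hd hε, coeff_X_pow_mul, brk, brk, map_sum]
    refine sum_congr rfl fun s _ => ?_
    rw [coeff_smul, liftD_C, coeff_mul_C, coeff_liftD]
  · intro k _ hk
    rw [CopS, CopS, Cop_quad hd hε F (fun s t u => by simp only [liftD_C, h, map_zero]) hk,
      mul_zero, map_zero]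
  · intro hn
    exact absurd (mem_range.2 (by omega)) hn

variable (dual ε)

lemma Cop_mem (T' : Subalgebra ℂ R) (hT : ∀ s, ∀ f ∈ T', d s f ∈ T') (k : ℕ) (F G : R⟦X⟧)
    (hF : ∀ n, coeff n F ∈ T') (hG : ∀ n, coeff n G ∈ T') (n : ℕ) :
    coeff n (CopS d dual ε k F G) ∈ T' := by
  induction k generalizing F G with
  | zero =>
    rw [CopS, Cop_zero, coeff_mul]
    exact T'.sum_mem fun p _ => T'.mul_mem (hF _) (hG _)
  | succ k ih =>
    rw [CopS, Cop_succ', coeff_smul, map_sum]
    refine T'.smul_mem (T'.sum_mem fun s _ => ?_) _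
    rw [coeff_smul]
    refine T'.smul_mem (ih _ _ (fun m => ?_) fun m => ?_) _
    · rw [coeff_liftD]; exact hT _ _ (hF m)
    · rw [coeff_liftD]; exact hT _ _ (hG m)

lemma star_mem (T' : Subalgebra ℂ R) (hT : ∀ s, ∀ f ∈ T', d s f ∈ T') (F G : R⟦X⟧)
    (hF : ∀ n, coeff n F ∈ T') (hG : ∀ n, coeff n G ∈ T') (n : ℕ) :
    coeff n (star d dual ε F G) ∈ T' := by
  rw [star, coeff_mk]
  refine T'.sum_mem fun k _ => ?_
  rw [coeff_X_pow_mul']
  split_ifs
  · exact Cop_mem d dual ε T' hT k F G hF hG _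
  · exact T'.zero_mem

variable {d}

/-- power series with the star product -/
def St (_dual : σ → σ) (_ε : σ → ℂ) (_h : ∀ s t f, d s (d t f) = d t (d s f)) : Type := R⟦X⟧

variable (h : ∀ s t f, d s (d t f) = d t (d s f))

noncomputable instance : AddCommGroup (St dual ε h) := inferInstanceAs (AddCommGroup R⟦X⟧)

noncomputable instance : Module ℂ⟦X⟧ (St dual ε h) := inferInstanceAs (Module ℂ⟦X⟧ R⟦X⟧)

noncomputable instance : Ring (St dual ε h) :=
  { (inferInstance : AddCommGroup (St dual ε h)) with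
    mul := star d dual ε
    one := (1 : R⟦X⟧)
    mul_assoc := star_assoc dual ε h
    one_mul := star_one_left d dual ε
    mul_one := star_one_right d dual ε
    left_distrib := star_add_right d dual ε
    right_distrib := star_add_left d dual ε
    zero_mul := star_zero_left d dual ε
    mul_zero := star_zero_right d dual ε }

noncomputable instance : Algebra ℂ⟦X⟧ (St dual ε h) :=
  Algebra.ofModule
    (fun r F G => star_const_left d dual ε (algebraMap ℂ⟦X⟧ R⟦X⟧ r) F G
      fun s => liftD_scalar (d s) r)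
    (fun r F G => star_const_right d dual ε (algebraMap ℂ⟦X⟧ R⟦X⟧ r) F G
      fun s => liftD_scalar (d s) r)

/-- the underlying series -/
noncomputable def St.ser : St dual ε h ≃ₗ[ℂ⟦X⟧] R⟦X⟧ where
  toFun F := F
  invFun F := F
  map_add' _ _ := rfl
  map_smul' _ _ := rfl
  left_inv _ := rfl
  right_inv _ := rfl

end series

theorem rowSTAR : RowSTAR := by
  intro T _ _ σ _ d dual ε h hd hε
  exact ⟨{
    W := St dual ε h
    ser := St.ser dual ε h
    ser_one := rfl
    coeff_zero_mul := fun F G => coeff_zero_star d dual ε F G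
    coeff_one_comm := fun F G => coeff_one_star_sub d hd hε F G
    mul_mem := fun T' hT F G hF hG n => star_mem d dual ε T' hT F G hF hG n
    quad := fun H hH F n => coeff_star_quad d hd hε H hH F n }⟩

end Pool.Agent.MP_86c931_ag.H31
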